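import Pool.Agent.Helper68.BA.Defs

/-!
Module IS of the MODES project: the weighted `L²` isometry of `f - κ * f`.
-/

set_option autoImplicit false

noncomputable section

namespace Pool.Agent.Helper68.BA

open MeasureTheory Set Filter Topology Complex
open scoped ContDiff

namespace IS

/-- `E β f y = ∫_0^∞ e^{-βu} f(y+u) du`. -/
def EE (β : ℝ) (f : ℝ → ℂ) (y : ℝ) : ℂ :=
  ∫ u in Ioi (0 : ℝ), (Real.exp (-β * u) : ℂ) * f (y + u)

lemma h_cont (β : ℝ) {f : ℝ → ℂ} (hf : Continuous f) :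
    Continuous (fun s : ℝ => (Real.exp (-β * s) : ℂ) * f s) := by
  fun_prop

lemma h_supp (β : ℝ) {f : ℝ → ℂ} (hfc : HasCompactSupport f) :
    HasCompactSupport (fun s : ℝ => (Real.exp (-β * s) : ℂ) * f s) :=
  hfc.mul_left

lemma h_int (β : ℝ) {f : ℝ → ℂ} (hf : Continuous f) (hfc : HasCompactSupport f) :
    Integrable (fun s : ℝ => (Real.exp (-β * s) : ℂ) * f s) :=
  (h_cont β hf).integrable_of_hasCompactSupport (h_supp β hfc)

lemma EE_eq (β : ℝ) (f : ℝ → ℂ) (y : ℝ) :
    EE β f y = (Real.exp (β * y) : ℂ) * ∫ s in Ioi y, (Real.exp (-β * s) : ℂ) * f s := by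
  have h1 := (measurePreserving_add_left (volume : Measure ℝ) y).setIntegral_preimage_emb
    (measurableEmbedding_addLeft y) (fun s : ℝ => (Real.exp (-β * s) : ℂ) * f s) (Ioi y)
  rw [Set.preimage_const_add_Ioi, sub_self] at h1
  rw [← h1, EE, ← integral_const_mul]
  congr 1
  funext u
  rw [← mul_assoc, ← Complex.ofReal_mul, ← Real.exp_add]
  congr 3
  ring

lemma EE_hasDerivAt (β : ℝ) {f : ℝ → ℂ} (hf : Continuous f) (hfc : HasCompactSupport f)
    (y : ℝ) : HasDerivAt (EE β f) ((β : ℂ) * EE β f y - f y) y := by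
  set h : ℝ → ℂ := fun s : ℝ => (Real.exp (-β * s) : ℂ) * f s with hh
  have hint : Integrable h := h_int β hf hfc
  have hcont : Continuous h := h_cont β hf
  have hG : ∀ z, ∫ s in Ioi z, h s = (∫ s in Ioi (0 : ℝ), h s) - ∫ s in (0 : ℝ)..z, h s := by
    intro z
    have e1 := intervalIntegral.integral_Iic_sub_Iic (hint.integrableOn (s := Iic (0 : ℝ)))
      (hint.integrableOn (s := Iic z))
    have e2 := integral_add_compl (measurableSet_Iic (a := z)) hint
    have e3 := integral_add_compl (measurableSet_Iic (a := (0 : ℝ))) hint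
    rw [compl_Iic] at e2 e3
    rw [← e1]
    have : (∫ s in Iic z, h s) + ∫ s in Ioi z, h s = (∫ s in Iic (0 : ℝ), h s) +
        ∫ s in Ioi (0 : ℝ), h s := by rw [e2, e3]
    linear_combination this
  have hd1 : HasDerivAt (fun z => ∫ s in Ioi z, h s) (-h y) y := by
    have : (fun z => ∫ s in Ioi z, h s) =
        fun z => (∫ s in Ioi (0 : ℝ), h s) - ∫ s in (0 : ℝ)..z, h s := by
      funext z; exact hG z
    rw [this]
    have h2 := intervalIntegral.integral_hasDerivAt_right (hcont.intervalIntegrable 0 y)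
      (hcont.stronglyMeasurableAtFilter _ _) hcont.continuousAt
    exact h2.const_sub _
  have hd2 : HasDerivAt (fun z : ℝ => (Real.exp (β * z) : ℂ))
      ((β : ℂ) * (Real.exp (β * y) : ℂ)) y := by
    have h3 : HasDerivAt (fun z : ℝ => Real.exp (β * z)) (Real.exp (β * y) * (β * 1)) y :=
      ((hasDerivAt_id y).const_mul β).exp
    have h4 := h3.ofReal_comp
    convert h4 using 1
    push_cast
    ring
  have hd := hd2.mul hd1
  have he : (fun z : ℝ => (Real.exp (β * z) : ℂ)) * (fun z => ∫ s in Ioi z, h s) = EE β f := by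
    funext z
    simp only [Pi.mul_apply]
    rw [EE_eq]
  rw [he] at hd
  refine hd.congr_deriv ?_
  rw [EE_eq]
  have : (Real.exp (β * y) : ℂ) * h y = f y := by
    rw [hh]
    simp only
    rw [← mul_assoc, ← Complex.ofReal_mul, ← Real.exp_add]
    have : β * y + -β * y = 0 := by ring
    rw [this]
    simp
  linear_combination (-1 : ℂ) * this

/-- Nice functions: continuous, `O(e^{b y})`, vanishing for large `y`. -/
def Nice (b : ℝ) (g : ℝ → ℂ) : Prop :=
  Continuous g ∧ ∃ D R : ℝ, 0 ≤ D ∧ (∀ y, ‖g y‖ ≤ D * Real.exp (b * y)) ∧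
    ∀ y, R ≤ y → g y = 0

lemma Nice.sub {b : ℝ} {g1 g2 : ℝ → ℂ} (h1 : Nice b g1) (h2 : Nice b g2) :
    Nice b (fun y => g1 y - g2 y) := by
  obtain ⟨c1, D1, R1, hD1, hb1, hz1⟩ := h1
  obtain ⟨c2, D2, R2, hD2, hb2, hz2⟩ := h2
  refine ⟨c1.sub c2, D1 + D2, max R1 R2, by positivity, ?_, ?_⟩
  · intro y
    have := norm_sub_le (g1 y) (g2 y)
    have := hb1 y
    have := hb2 y
    nlinarith
  · intro y hy
    show g1 y - g2 y = 0
    rw [hz1 y (le_trans (le_max_left _ _) hy), hz2 y (le_trans (le_max_right _ _) hy), sub_zero]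

lemma Nice.add {b : ℝ} {g1 g2 : ℝ → ℂ} (h1 : Nice b g1) (h2 : Nice b g2) :
    Nice b (fun y => g1 y + g2 y) := by
  obtain ⟨c1, D1, R1, hD1, hb1, hz1⟩ := h1
  obtain ⟨c2, D2, R2, hD2, hb2, hz2⟩ := h2
  refine ⟨c1.add c2, D1 + D2, max R1 R2, by positivity, ?_, ?_⟩
  · intro y
    have := norm_add_le (g1 y) (g2 y)
    have := hb1 y
    have := hb2 y
    nlinarith
  · intro y hy
    show g1 y + g2 y = 0
    rw [hz1 y (le_trans (le_max_left _ _) hy), hz2 y (le_trans (le_max_right _ _) hy), add_zero]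

lemma Nice.const_mul {b : ℝ} {g : ℝ → ℂ} (h : Nice b g) (c : ℂ) :
    Nice b (fun y => c * g y) := by
  obtain ⟨c1, D1, R1, hD1, hb1, hz1⟩ := h
  refine ⟨continuous_const.mul c1, ‖c‖ * D1, R1, by positivity, ?_, ?_⟩
  · intro y
    rw [norm_mul, mul_assoc]
    exact mul_le_mul_of_nonneg_left (hb1 y) (norm_nonneg c)
  · intro y hy
    show c * g y = 0
    rw [hz1 y hy, mul_zero]

lemma Nice.zero (b : ℝ) : Nice b (fun _ => 0) :=
  ⟨continuous_const, 0, 0, le_rfl, fun y => by simp, fun y _ => rfl⟩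

lemma Nice.sum {b : ℝ} {ι : Type*} (s : Finset ι) (g : ι → ℝ → ℂ) (h : ∀ i ∈ s, Nice b (g i)) :
    Nice b (fun y => ∑ i ∈ s, g i y) := by
  classical
  induction s using Finset.induction_on with
  | empty => simpa using Nice.zero b
  | insert a s ha ih =>
    simp only [Finset.sum_insert ha]
    exact (h a (Finset.mem_insert_self a s)).add
      (ih fun i hi => h i (Finset.mem_insert_of_mem hi))

lemma exists_bound {f : ℝ → ℂ} (hf : Continuous f) (hfc : HasCompactSupport f) :
    ∃ M R : ℝ, 0 ≤ M ∧ 0 ≤ R ∧ (∀ y, ‖f y‖ ≤ M) ∧ (∀ y, R ≤ |y| → f y = 0) := by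
  obtain ⟨M, hM⟩ := hf.bounded_above_of_compact_support hfc
  obtain ⟨R, hR⟩ := hfc.isCompact.isBounded.subset_closedBall 0
  refine ⟨M, max R 0 + 1, le_trans (norm_nonneg _) (hM 0), by positivity, hM, ?_⟩
  intro y hy
  by_contra hne
  have h1 : y ∈ tsupport f := subset_tsupport f hne
  have h2 := hR h1
  rw [mem_closedBall_zero_iff, Real.norm_eq_abs] at h2
  have := le_max_left R 0
  linarith

lemma nice_f {b : ℝ} (hb : 0 < b) {f : ℝ → ℂ} (hf : Continuous f)
    (hfc : HasCompactSupport f) : Nice b f := by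
  obtain ⟨M, R, hM, hR, hb1, hz⟩ := exists_bound hf hfc
  refine ⟨hf, M * Real.exp (b * R), R, by positivity, ?_, ?_⟩
  · intro y
    by_cases h : R ≤ |y|
    · rw [hz y h, norm_zero]; positivity
    · push Not at h
      have h1 : -R < y := (abs_lt.mp h).1
      refine (hb1 y).trans ?_
      rw [mul_assoc, ← Real.exp_add]
      have : 1 ≤ Real.exp (b * R + b * y) := by
        rw [Real.one_le_exp_iff]
        nlinarith
      nlinarith
  · intro y hy
    exact hz y (hy.trans (le_abs_self y))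

lemma nice_EE {b β : ℝ} (hβ : b ≤ β) {f : ℝ → ℂ} (hf : Continuous f)
    (hfc : HasCompactSupport f) : Nice b (EE β f) := by
  obtain ⟨M, R, hM, hR, hb1, hz⟩ := exists_bound hf hfc
  have hcont : Continuous (EE β f) :=
    continuous_iff_continuousAt.mpr fun y => (EE_hasDerivAt β hf hfc y).continuousAt
  set h : ℝ → ℂ := fun s : ℝ => (Real.exp (-β * s) : ℂ) * f s with hh
  have hint : Integrable h := h_int β hf hfc
  set C : ℝ := ∫ s, ‖h s‖ with hC
  have hC0 : 0 ≤ C := integral_nonneg fun s => norm_nonneg _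
  have hzero : ∀ y, R ≤ y → EE β f y = 0 := by
    intro y hy
    rw [EE]
    apply setIntegral_eq_zero_of_forall_eq_zero
    intro u hu
    have hu' : 0 < u := hu
    rw [hz (y + u) (le_trans (by linarith) (le_abs_self _)), mul_zero]
  refine ⟨hcont, C * Real.exp ((β - b) * R), R, by positivity, ?_, hzero⟩
  intro y
  rcases le_total R y with hy | hy
  · rw [hzero y hy, norm_zero]; positivity
  · rw [EE_eq, norm_mul]
    have h1 : ‖∫ s in Ioi y, h s‖ ≤ C := by
      refine (norm_integral_le_integral_norm _).trans ?_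
      exact setIntegral_le_integral hint.norm (Eventually.of_forall fun s => norm_nonneg _)
    have h2 : ‖(Real.exp (β * y) : ℂ)‖ = Real.exp (β * y) := by
      rw [Complex.norm_real, Real.norm_of_nonneg (Real.exp_pos _).le]
    rw [h2]
    have h3 : Real.exp (β * y) ≤ Real.exp ((β - b) * R) * Real.exp (b * y) := by
      rw [← Real.exp_add, Real.exp_le_exp]
      nlinarith [mul_nonneg (sub_nonneg.mpr hβ) (sub_nonneg.mpr hy)]
    calc Real.exp (β * y) * ‖∫ s in Ioi y, h s‖ ≤
        (Real.exp ((β - b) * R) * Real.exp (b * y)) * C :=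
          mul_le_mul h3 h1 (norm_nonneg _) (by positivity)
      _ = C * Real.exp ((β - b) * R) * Real.exp (b * y) := by ring

lemma nice_prod_integrable {b ε : ℝ} (hε : 0 < 2 * b + ε) {g1 g2 : ℝ → ℂ}
    (h1 : Nice b g1) (h2 : Nice b g2) :
    Integrable (fun y => g1 y * (starRingEnd ℂ) (g2 y) * (Real.exp (ε * y) : ℂ)) := by
  obtain ⟨c1, D1, R1, hD1, hb1, hz1⟩ := h1
  obtain ⟨c2, D2, R2, hD2, hb2, hz2⟩ := h2
  have hcont : Continuous (fun y => g1 y * (starRingEnd ℂ) (g2 y) * (Real.exp (ε * y) : ℂ)) := by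
    have := Complex.continuous_conj.comp c2
    fun_prop
  have hI1 : IntegrableOn
      (fun y => g1 y * (starRingEnd ℂ) (g2 y) * (Real.exp (ε * y) : ℂ)) (Iic R1) := by
    have hbd : IntegrableOn (fun y : ℝ => D1 * D2 * Real.exp ((2 * b + ε) * y)) (Iic R1) :=
      (integrableOn_exp_mul_Iic hε R1).const_mul _
    refine Integrable.mono' hbd hcont.aestronglyMeasurable ?_
    refine Eventually.of_forall fun y => ?_
    rw [norm_mul, norm_mul, RCLike.norm_conj, Complex.norm_real,
      Real.norm_of_nonneg (Real.exp_pos _).le]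
    calc ‖g1 y‖ * ‖g2 y‖ * Real.exp (ε * y) ≤
        (D1 * Real.exp (b * y)) * (D2 * Real.exp (b * y)) * Real.exp (ε * y) := by
          have := mul_le_mul (hb1 y) (hb2 y) (norm_nonneg _) (by positivity)
          exact mul_le_mul_of_nonneg_right this (Real.exp_pos _).le
      _ = D1 * D2 * Real.exp ((2 * b + ε) * y) := by
          have : Real.exp ((2 * b + ε) * y) =
              Real.exp (b * y) * Real.exp (b * y) * Real.exp (ε * y) := by
            rw [← Real.exp_add, ← Real.exp_add]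
            congr 1
            ring
          rw [this]
          ring
  have hI2 : IntegrableOn
      (fun y => g1 y * (starRingEnd ℂ) (g2 y) * (Real.exp (ε * y) : ℂ)) (Ioi R1) := by
    refine IntegrableOn.congr_fun (f := fun _ => (0 : ℂ)) integrableOn_zero ?_ measurableSet_Ioi
    intro y hy
    have hy' : R1 ≤ y := le_of_lt hy
    simp only
    rw [hz1 y hy']
    simp
  have := hI1.union hI2
  rwa [Iic_union_Ioi, integrableOn_univ] at this

end IS

open IS in
theorem Sop_isometry (ε β0 : ℝ) (K : ℕ) (r : ℕ → ℝ) (hβ : 0 < β0) (hε : 0 < 2 * β0 + ε)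
    (hC : ∀ j < K, ∑ i ∈ Finset.range K, r i / (2 * β0 + ε + i + j) = 1)
    (κ : ℝ → ℝ) (hκ : ∀ u, κ u = ∑ j ∈ Finset.range K, r j * Real.exp (-(β0 + j) * u))
    (f : ℝ → ℂ) (hf : Continuous f) (hfc : HasCompactSupport f) :
    Integrable (fun y => ‖Sop κ f y‖ ^ 2 * Real.exp (ε * y)) ∧
      ∫ y, ‖Sop κ f y‖ ^ 2 * Real.exp (ε * y) = ∫ y, ‖f y‖ ^ 2 * Real.exp (ε * y) := by
  classical
  set E : ℕ → ℝ → ℂ := fun j => EE (β0 + j) f with hE
  have hS : ∀ y, Sop κ f y = f y - ∑ j ∈ Finset.range K, (r j : ℂ) * E j y := by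
    intro y
    rw [Sop]
    congr 1
    have h1 : ∀ u, (κ u : ℂ) * f (y + u) =
        ∑ j ∈ Finset.range K, (r j : ℂ) * ((Real.exp (-(β0 + j) * u) : ℂ) * f (y + u)) := by
      intro u
      rw [hκ u]
      push_cast
      rw [Finset.sum_mul]
      refine Finset.sum_congr rfl fun j _ => ?_
      ring
    simp_rw [h1]
    rw [integral_finsetSum]
    · refine Finset.sum_congr rfl fun j _ => ?_
      rw [integral_const_mul]
      rfl
    · intro j _
      refine Integrable.const_mul ?_ _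
      have hc : Continuous (fun u : ℝ => f (y + u)) := by fun_prop
      have hs : HasCompactSupport (fun u : ℝ => f (y + u)) :=
        hfc.comp_homeomorph (Homeomorph.addLeft y)
      exact (h_int (β0 + j) hc hs).integrableOn
  have hEd : ∀ j y, HasDerivAt (E j) (((β0 + j : ℝ) : ℂ) * E j y - f y) y :=
    fun j y => EE_hasDerivAt (β0 + j) hf hfc y
  have hEn : ∀ j, Nice β0 (E j) := fun j =>
    nice_EE (by have : (0 : ℝ) ≤ j := Nat.cast_nonneg j; linarith) hf hfc
  have hfn : Nice β0 f := nice_f hβ hf hfc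
  have hSn : Nice β0 (Sop κ f) := by
    have h1 : Nice β0 (fun y => f y - ∑ j ∈ Finset.range K, (r j : ℂ) * E j y) :=
      hfn.sub (Nice.sum _ _ fun j _ => (hEn j).const_mul _)
    have h2 : Sop κ f = fun y => f y - ∑ j ∈ Finset.range K, (r j : ℂ) * E j y := by
      funext y; exact hS y
    rw [h2]; exact h1
  -- the primitive
  set P : ℝ → ℂ := fun y => ∑ i ∈ Finset.range K, ∑ j ∈ Finset.range K,
    ((r i * r j / (2 * β0 + ε + i + j) : ℝ) : ℂ) *
      (E i y * (starRingEnd ℂ) (E j y) * (Real.exp (ε * y) : ℂ)) with hP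
  have hPint : Integrable P := by
    refine integrable_finsetSum _ fun i _ => integrable_finsetSum _ fun j _ => ?_
    exact (nice_prod_integrable hε (hEn i) (hEn j)).const_mul _
  have hwd : ∀ y : ℝ, HasDerivAt (fun y : ℝ => (Real.exp (ε * y) : ℂ))
      ((ε : ℂ) * (Real.exp (ε * y) : ℂ)) y := by
    intro y
    have h3 : HasDerivAt (fun z : ℝ => Real.exp (ε * z)) (Real.exp (ε * y) * (ε * 1)) y :=
      ((hasDerivAt_id y).const_mul ε).exp
    have h4 := h3.ofReal_comp
    convert h4 using 1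
    push_cast
    ring
  have hcd : ∀ j y, HasDerivAt (fun y => (starRingEnd ℂ) (E j y))
      ((starRingEnd ℂ) (((β0 + j : ℝ) : ℂ) * E j y - f y)) y := by
    intro j y
    exact (hEd j y).star
  have hpos : ∀ i j : ℕ, (2 * β0 + ε + i + j : ℝ) ≠ 0 := by
    intro i j
    have h1 : (0 : ℝ) ≤ i := Nat.cast_nonneg i
    have h2 : (0 : ℝ) ≤ j := Nat.cast_nonneg j
    have : 0 < 2 * β0 + ε + i + j := by linarith
    exact this.ne'
  have hPd : ∀ y, HasDerivAt P
      (Sop κ f y * (starRingEnd ℂ) (Sop κ f y) * (Real.exp (ε * y) : ℂ) -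
        f y * (starRingEnd ℂ) (f y) * (Real.exp (ε * y) : ℂ)) y := by
    intro y
    have h1 : HasDerivAt P (∑ i ∈ Finset.range K, ∑ j ∈ Finset.range K,
        ((r i * r j / (2 * β0 + ε + i + j) : ℝ) : ℂ) *
          (((((β0 + i : ℝ) : ℂ) * E i y - f y) * (starRingEnd ℂ) (E j y) +
            E i y * (starRingEnd ℂ) (((β0 + j : ℝ) : ℂ) * E j y - f y)) *
              (Real.exp (ε * y) : ℂ) +
            E i y * (starRingEnd ℂ) (E j y) * ((ε : ℂ) * (Real.exp (ε * y) : ℂ)))) y := by
      rw [hP]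
      refine HasDerivAt.fun_sum fun i _ => HasDerivAt.fun_sum fun j _ => ?_
      exact (((hEd i y).mul (hcd j y)).mul (hwd y)).const_mul _
    convert h1 using 1
    set w : ℂ := (Real.exp (ε * y) : ℂ) with hw
    have hCc : ∀ j ∈ Finset.range K,
        ∑ i ∈ Finset.range K, ((r i / (2 * β0 + ε + i + j) : ℝ) : ℂ) = 1 := by
      intro j hj
      have := hC j (Finset.mem_range.mp hj)
      rw [← Complex.ofReal_sum, this, Complex.ofReal_one]
    -- expand each term
    have hterm : ∀ i ∈ Finset.range K, ∀ j ∈ Finset.range K,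
        ((r i * r j / (2 * β0 + ε + i + j) : ℝ) : ℂ) *
          (((((β0 + i : ℝ) : ℂ) * E i y - f y) * (starRingEnd ℂ) (E j y) +
            E i y * (starRingEnd ℂ) (((β0 + j : ℝ) : ℂ) * E j y - f y)) * w +
            E i y * (starRingEnd ℂ) (E j y) * ((ε : ℂ) * w)) =
        (r i : ℂ) * E i y * ((r j : ℂ) * (starRingEnd ℂ) (E j y)) * w -
        ((r i / (2 * β0 + ε + i + j) : ℝ) : ℂ) *
          (f y * ((r j : ℂ) * (starRingEnd ℂ) (E j y)) * w) -
        ((r j / (2 * β0 + ε + i + j) : ℝ) : ℂ) *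
          ((r i : ℂ) * E i y * (starRingEnd ℂ) (f y) * w) := by
      intro i _ j _
      have hne : ((2 * β0 + ε + i + j : ℝ) : ℂ) ≠ 0 := by
        exact_mod_cast hpos i j
      simp only [map_sub, map_mul, Complex.conj_ofReal]
      push_cast at hne ⊢
      field_simp
      ring
    rw [Finset.sum_congr rfl fun i hi => Finset.sum_congr rfl fun j hj => hterm i hi j hj]
    simp only [Finset.sum_sub_distrib]
    have t2 : ∑ i ∈ Finset.range K, ∑ j ∈ Finset.range K,
        ((r i / (2 * β0 + ε + i + j) : ℝ) : ℂ) *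
          (f y * ((r j : ℂ) * (starRingEnd ℂ) (E j y)) * w) =
        ∑ j ∈ Finset.range K, f y * ((r j : ℂ) * (starRingEnd ℂ) (E j y)) * w := by
      rw [Finset.sum_comm]
      refine Finset.sum_congr rfl fun j hj => ?_
      rw [← Finset.sum_mul, hCc j hj, one_mul]
    have t3 : ∑ i ∈ Finset.range K, ∑ j ∈ Finset.range K,
        ((r j / (2 * β0 + ε + i + j) : ℝ) : ℂ) *
          ((r i : ℂ) * E i y * (starRingEnd ℂ) (f y) * w) =
        ∑ i ∈ Finset.range K, (r i : ℂ) * E i y * (starRingEnd ℂ) (f y) * w := by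
      refine Finset.sum_congr rfl fun i hi => ?_
      rw [← Finset.sum_mul]
      have : ∑ j ∈ Finset.range K, ((r j / (2 * β0 + ε + i + j) : ℝ) : ℂ) = 1 := by
        rw [← hCc i hi]
        refine Finset.sum_congr rfl fun j _ => ?_
        congr 2
        ring
      rw [this, one_mul]
    rw [t2, t3, hS y]
    simp only [map_sub, map_sum, map_mul, Complex.conj_ofReal]
    have s1 : ∑ i ∈ Finset.range K, ∑ j ∈ Finset.range K,
        (r i : ℂ) * E i y * ((r j : ℂ) * (starRingEnd ℂ) (E j y)) * w =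
        (∑ i ∈ Finset.range K, (r i : ℂ) * E i y) *
          (∑ j ∈ Finset.range K, (r j : ℂ) * (starRingEnd ℂ) (E j y)) * w := by
      rw [Finset.sum_mul_sum, Finset.sum_mul]
      refine Finset.sum_congr rfl fun i _ => ?_
      rw [Finset.sum_mul]
    have s2 : ∑ j ∈ Finset.range K, f y * ((r j : ℂ) * (starRingEnd ℂ) (E j y)) * w =
        f y * (∑ j ∈ Finset.range K, (r j : ℂ) * (starRingEnd ℂ) (E j y)) * w := by
      rw [Finset.mul_sum, Finset.sum_mul]
    have s3 : ∑ i ∈ Finset.range K, (r i : ℂ) * E i y * (starRingEnd ℂ) (f y) * w =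
        (∑ i ∈ Finset.range K, (r i : ℂ) * E i y) * (starRingEnd ℂ) (f y) * w := by
      rw [Finset.sum_mul, Finset.sum_mul]
    rw [s1, s2, s3]
    ring
  have hI1 := nice_prod_integrable hε hSn hSn
  have hI2 := nice_prod_integrable hε hfn hfn
  have hz := integral_eq_zero_of_hasDerivAt_of_integrable hPd (hI1.sub hI2) hPint
  rw [integral_sub hI1 hI2] at hz
  have conv : ∀ g : ℝ → ℂ, (fun y => g y * (starRingEnd ℂ) (g y) * (Real.exp (ε * y) : ℂ)) =
      fun y => ((‖g y‖ ^ 2 * Real.exp (ε * y) : ℝ) : ℂ) := by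
    intro g
    funext y
    rw [Complex.mul_conj, Complex.normSq_eq_norm_sq]
    push_cast
    ring
  rw [conv] at hI1 hI2
  rw [conv, conv, integral_complex_ofReal, integral_complex_ofReal, ← Complex.ofReal_sub] at hz
  have hz' := Complex.ofReal_eq_zero.mp hz
  refine ⟨?_, by linarith⟩
  exact hI1.re

end Pool.Agent.Helper68.BA
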